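import Pool.Agent.H560R2.Sum8

/-!
3SUM on sets of integers given by presence bits: algorithms with monotone real operations and few
tests need `n ^ (2 - o(1))` operations, even on average.

For sets of at most `n` integers between `0` and `n ^ (1 + b)` the problem has `n ^ (1 + b)` input
bits. It is monotone in these bits, `n ^ (2 + 2 b)` monotone gates suffice, and `n ^ (1 + b + o(1))`
gates suffice if negations are allowed (fast Fourier transform). We show that `n ^ (2 - ε)` gates do
not suffice if all gates are nondecreasing real functions of two arguments, even if a few tests with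
arbitrary consequences are allowed, even for a small advantage over guessing on fixed distributions
of inputs; the loss is a factor `n ^ (2 g)` if the tests have `n ^ g` joint outcomes.

The hard inputs. Consider words `a` of length `k` over a large fixed alphabet `{0, ..., m - 1}`,
written as numbers in base `2 m`. A yes-block consists of `a`, `b` and `a + b` (in three disjoint
ranges of numbers) for two random words. A no-block consists of all numbers in the three ranges
whose words `c` satisfy `⟨α, c⟩ = 1` in a fixed finite field, for a random vector `α`. A set of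
words that is not very small contains, by a lemma of Natarajan, a subset that looks like a cube in
many coordinates, and then a moment computation with characters shows that it is missed by a random
`⟨α, ·⟩ = 1` with very small probability only. So functions computed by small monotone real programs
are approximated, at all thresholds together, by a number or the maximum of functions of single
elements. For the tests many blocks and a chain of inputs are used.
-/

namespace Pool.Agent.Results.MP_13bec0_lc.MonotoneCircuits

open Finset

/-- `S` has three pairwise different elements `a, b, c` with `a + b = c`. -/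
def HasSum (S : Finset ℤ) : Prop :=
  ∃ a ∈ S, ∃ b ∈ S, ∃ c ∈ S, a ≠ b ∧ a ≠ c ∧ b ≠ c ∧ a + b = c

/-- `S` has at most `n` elements and they are between `0` and `n ^ e`. -/
def Input (n : ℕ) (e : ℝ) (S : Finset ℤ) : Prop :=
  S.card ≤ n ∧ ∀ z ∈ S, 0 ≤ z ∧ (z : ℝ) ≤ (n : ℝ) ^ e

/-- Circuits that read a set of integers; the inputs are the numbers `x z`, which is `1` if `z` is in
the set and `0` otherwise. Gate `i` has the `w i` arguments `a i j`, each an input or the result of
an earlier gate, and computes the function `op i`; the results are `val x i`. The gates outside `T`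
are nondecreasing functions with at most two arguments. The result of a gate `i` in `T` depends in
an arbitrary way on the answers to the tests whether `θ i j` is at most the `j`-th argument. The
circuit accepts if the result of gate `out` is at least `τ`. -/
structure Circuit where
  s : ℕ
  T : Finset (Fin s)
  w : Fin s → ℕ
  a : (i : Fin s) → Fin (w i) → ℤ ⊕ Fin s
  op : (i : Fin s) → (Fin (w i) → ℝ) → ℝ
  θ : (i : Fin s) → Fin (w i) → ℝ
  val : (ℤ → Bool) → Fin s → ℝ
  out : Fin s
  τ : ℝ
  earlier : ∀ i j k, a i j = Sum.inr k → k < i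
  mono : ∀ i ∉ T, w i ≤ 2 ∧ Monotone (op i)
  test : ∀ i ∈ T, ∀ z z' : Fin (w i) → ℝ, (∀ j, θ i j ≤ z j ↔ θ i j ≤ z' j) → op i z = op i z'
  spec : ∀ x i, val x i =
    op i (fun j => Sum.elim (fun z => if x z = true then (1 : ℝ) else 0) (val x) (a i j))

open Classical in
/-- the circuit accepts the set `S` -/
def Accepts (C : Circuit) (S : Finset ℤ) : Prop :=
  C.τ ≤ C.val (fun z => decide (z ∈ S)) C.out

/-- The circuit has size at most `n ^ t`, that is, the number of gates plus the total number of
arguments of the gates in `T`, and the tests have at most `n ^ g` outcomes, that is, the product of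
the numbers `w i + 1` over the gates in `T` is at most `n ^ g`. -/
def Small (n : ℕ) (t g : ℝ) (C : Circuit) : Prop :=
  ((C.s + ∑ i ∈ C.T, C.w i : ℕ) : ℝ) ≤ (n : ℝ) ^ t ∧
    ((∏ i ∈ C.T, (C.w i + 1) : ℕ) : ℝ) ≤ (n : ℝ) ^ g

open Classical in
/-- Let `g, t ≥ 0`, `b > 0` and `t + 2 g < 2`. There is `a > 0` such that for all large `n`:

(A) there are a distribution `yes` of sets of at most `n` integers between `0` and
`n ^ (1 + g + b)` that have a solution and a distribution `no` of such sets that have no solution
(both uniform over a finite index set), such that each circuit with size at most `n ^ t`, the tests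
of which have at most `n ^ g` outcomes, accepts `yes` with a probability that exceeds the
probability that it accepts `no` by at most `n ^ (-a)`;

(B) for each random such circuit there is a set of at most `n` integers between `0` and
`n ^ (1 + g + b)` on which it errs with probability at least `(1 - n ^ (-a)) / 2`. -/
theorem result (g t b : ℝ) (hg : 0 ≤ g) (ht : 0 ≤ t) (hb : 0 < b) (htg : t + 2 * g < 2) :
    ∃ a : ℝ, 0 < a ∧ ∃ n0 : ℕ, ∀ n : ℕ, n0 ≤ n →
      (∃ (Λ : Type) (_ : Fintype Λ) (_ : Nonempty Λ) (yes no : Λ → Finset ℤ),
        (∀ l, Input n (1 + g + b) (yes l) ∧ HasSum (yes l)) ∧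
        (∀ l, Input n (1 + g + b) (no l) ∧ ¬ HasSum (no l)) ∧
        ∀ C : Circuit, Small n t g C →
          ((univ.filter (fun l : Λ => Accepts C (yes l))).card : ℝ) / Fintype.card Λ ≤
            ((univ.filter (fun l : Λ => Accepts C (no l))).card : ℝ) / Fintype.card Λ +
              (n : ℝ) ^ (-a)) ∧
      (∀ (R : Type) (_ : Fintype R) (_ : Nonempty R) (C : R → Circuit), (∀ r, Small n t g (C r)) →
        ∃ S : Finset ℤ, Input n (1 + g + b) S ∧
          (1 - (n : ℝ) ^ (-a)) / 2 ≤
            ((univ.filter (fun r : R => ¬ (Accepts (C r) S ↔ HasSum S))).card : ℝ) /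
              Fintype.card R) := by
  obtain ⟨a, ha, n0, hmain⟩ := Pool.Agent.H560R2.sum_hard g t b hg ht hb htg
  refine ⟨a, ha, n0, fun n hn => ?_⟩
  obtain ⟨Λ, hΛ, hΛne, yes, no, hyes, hno, hadv⟩ := hmain n hn
  have hA : ∀ C : Circuit, Small n t g C →
      ((univ.filter (fun l : Λ => Accepts C (yes l))).card : ℝ) / Fintype.card Λ ≤
        ((univ.filter (fun l : Λ => Accepts C (no l))).card : ℝ) / Fintype.card Λ +
          (n : ℝ) ^ (-a) := by
    intro C hC
    exact hadv C.s C.T C.w C.a C.op C.θ C.val C.out C.τ C.earlier C.mono C.test C.spec hC.1 hC.2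
  refine ⟨⟨Λ, hΛ, hΛne, yes, no, fun l => ⟨⟨(hyes l).1, (hyes l).2.1⟩, (hyes l).2.2⟩,
    fun l => ⟨⟨(hno l).1, (hno l).2.1⟩, (hno l).2.2⟩, hA⟩, ?_⟩
  intro R hR hRne C hC
  by_contra hcon0
  have hcon : ∀ S : Finset ℤ, Input n (1 + g + b) S →
      ((univ.filter (fun r : R => ¬ (Accepts (C r) S ↔ HasSum S))).card : ℝ) / Fintype.card R <
        (1 - (n : ℝ) ^ (-a)) / 2 := by
    intro S hS
    by_contra h
    exact hcon0 ⟨S, hS, not_lt.mp h⟩
  have hL0 : (0 : ℝ) < Fintype.card Λ := by exact_mod_cast Fintype.card_pos
  have hR0 : (0 : ℝ) < Fintype.card R := by exact_mod_cast Fintype.card_pos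
  obtain ⟨q, hq⟩ : ∃ q : ℝ, q = (n : ℝ) ^ (-a) := ⟨_, rfl⟩
  rw [← hq] at hcon
  -- few errors on each input
  let er : Finset ℤ → R → ℝ := fun S r => if ¬ (Accepts (C r) S ↔ HasSum S) then 1 else 0
  have h1 : ∀ S : Finset ℤ, Input n (1 + g + b) S → ∑ r, er S r < (1 - q) / 2 * Fintype.card R := by
    intro S hS
    have h2 := hcon S hS
    rw [div_lt_iff₀ hR0, Finset.card_filter] at h2
    push_cast at h2
    exact h2
  have h3 : ∑ l : Λ, ∑ r, er (yes l) r < Fintype.card Λ * ((1 - q) / 2 * Fintype.card R) := by
    calc _ < ∑ _l : Λ, (1 - q) / 2 * Fintype.card R :=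
          Finset.sum_lt_sum_of_nonempty Finset.univ_nonempty
            (fun l _ => h1 _ ⟨(hyes l).1, (hyes l).2.1⟩)
      _ = _ := by rw [Finset.sum_const, Finset.card_univ, nsmul_eq_mul]
  have h4 : ∑ l : Λ, ∑ r, er (no l) r < Fintype.card Λ * ((1 - q) / 2 * Fintype.card R) := by
    calc _ < ∑ _l : Λ, (1 - q) / 2 * Fintype.card R :=
          Finset.sum_lt_sum_of_nonempty Finset.univ_nonempty
            (fun l _ => h1 _ ⟨(hno l).1, (hno l).2.1⟩)
      _ = _ := by rw [Finset.sum_const, Finset.card_univ, nsmul_eq_mul]
  -- many errors for each circuit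
  have h5 : ∀ r, (1 - q) * Fintype.card Λ ≤ ∑ l : Λ, er (yes l) r + ∑ l : Λ, er (no l) r := by
    intro r
    have h6 := hA (C r) (hC r)
    rw [← hq, div_add' _ _ _ hL0.ne', div_le_div_iff_of_pos_right hL0, Finset.card_filter,
      Finset.card_filter] at h6
    push_cast at h6
    have h7 : ∀ l : Λ, er (yes l) r = 1 - (if Accepts (C r) (yes l) then (1 : ℝ) else 0) := by
      intro l
      have : HasSum (yes l) := (hyes l).2.2
      simp only [er, this, iff_true]
      by_cases hacc : Accepts (C r) (yes l)
      · simp [hacc]
      · simp [hacc]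
    have h8 : ∀ l : Λ, er (no l) r = (if Accepts (C r) (no l) then (1 : ℝ) else 0) := by
      intro l
      have : ¬ HasSum (no l) := (hno l).2.2
      simp only [er, this, iff_false, not_not]
    simp only [h7, h8, Finset.sum_sub_distrib, Finset.sum_const, Finset.card_univ, nsmul_eq_mul,
      mul_one]
    linarith
  have h9 : Fintype.card R * ((1 - q) * Fintype.card Λ) ≤
      ∑ l : Λ, ∑ r, er (yes l) r + ∑ l : Λ, ∑ r, er (no l) r := by
    rw [Finset.sum_comm, Finset.sum_comm (s := (univ : Finset Λ)) (t := (univ : Finset R)),
      ← Finset.sum_add_distrib]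
    calc (Fintype.card R : ℝ) * ((1 - q) * Fintype.card Λ) = ∑ _r : R, (1 - q) * Fintype.card Λ := by
          rw [Finset.sum_const, Finset.card_univ, nsmul_eq_mul]
      _ ≤ _ := Finset.sum_le_sum (fun r _ => h5 r)
  have h10 : (Fintype.card R : ℝ) * ((1 - q) * Fintype.card Λ) =
      Fintype.card Λ * ((1 - q) / 2 * Fintype.card R) +
      Fintype.card Λ * ((1 - q) / 2 * Fintype.card R) := by ring
  linarith

end Pool.Agent.Results.MP_13bec0_lc.MonotoneCircuits
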