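import Pool.Agent.H596R2.D3R.Expect

/-!
The 3SUM hypothesis for bounded-error randomised depth three circuits.
-/

namespace Pool.Agent.Results.MP_13bec0_lc.RandomizedDepthThree

open Pool.Agent.H596R2.D3 Pool.Agent.H596R2.D3R

theorem result :
    (∀ ε > (0 : ℝ), ∀ δ > (0 : ℝ), ∃ c : ℝ, 0 < c ∧ ∀ n : ℕ, 2 ≤ n →
      ∀ (L : Type) [Fintype L] (w : L → ℝ) (C : L → Circuit (SumBit 3 n) 3),
        (∀ l, 0 ≤ w l) → ∑ l, w l = 1 →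
        (∀ z, ValidSum z → 1 / 2 + ε ≤ success w C z (SumIn z)) →
        c * (n : ℝ) ^ (2 - δ) ≤ expSize w C) ∧
    ∀ a b : ℕ, 0 < b → a < 2 * b → ∀ K : ℕ,
      ∃ N : ℕ, ∀ n ≥ N, ¬ ∃ (L : Type) (_ : Fintype L) (w : L → ℝ)
        (C : L → Circuit (SumBit 3 n) 3), (∀ l, 0 ≤ w l) ∧ ∑ l, w l = 1 ∧
        (∀ z, ValidSum z → 2 / 3 ≤ success w C z (SumIn z)) ∧
        expSize w C ≤ K * ((n : ℝ) ^ ((a : ℝ) / b) + 1) :=
  ⟨fun ε hε δ hδ => three_sum_in_exp ε δ hε hδ, fun a b hb hab K => three_sum_in_q1 a b hb hab K⟩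

end Pool.Agent.Results.MP_13bec0_lc.RandomizedDepthThree
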