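import Mathlib

set_option autoImplicit false

/-!
Problem MP_13bec0_lc: a quadratic lower bound for 3SUM on sets of `n` integers in
`{-n^3, ..., n^3}` for all randomized algorithms, with two-sided error, which access the input
numbers only through signs of integer affine forms `α a + β b + γ c + ρ` in at most three of the
numbers, with coefficients bounded by `K` and constant term bounded by `L`.
-/

namespace Pool.Agent.Results.MP_13bec0_lc.ThreeTermTests

open MeasureTheory

/-- Decision trees for inputs `x 0, ..., x (n-1)`. An inner node `test c r s t u` looks at the sign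
of the affine form `∑ i, c i * x i + r`, and continues with `s`, `t` or `u` according to whether
it is negative, zero or positive. -/
inductive Tree (n : ℕ) : Type
  | answer (b : Bool) : Tree n
  | test (c : Fin n → ℤ) (r : ℤ) (s t u : Tree n) : Tree n

/-- The value of the linear form with coefficients `c` at the input `x`. -/
def form {n : ℕ} (c x : Fin n → ℤ) : ℤ := ∑ i, c i * x i

/-- The set of input numbers on which a form depends. -/
def support {n : ℕ} (c : Fin n → ℤ) : Finset (Fin n) := Finset.univ.filter fun i => c i ≠ 0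

/-- All tests of the tree are affine forms with at most three nonzero coefficients; these
coefficients are integers of absolute value at most `K`, and the constant terms are integers of
absolute value at most `L`. -/
def Tree.Allowed {n : ℕ} (K L : ℕ) : Tree n → Prop
  | .answer _ => True
  | .test c r s t u => (support c).card ≤ 3 ∧ (∀ i, |c i| ≤ K) ∧ |r| ≤ L ∧
      s.Allowed K L ∧ t.Allowed K L ∧ u.Allowed K L

/-- The answer given by a tree on the input `x`. -/
def Tree.eval {n : ℕ} : Tree n → (Fin n → ℤ) → Bool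
  | .answer b, _ => b
  | .test c r s t u, x =>
      if form c x + r < 0 then s.eval x else if form c x + r = 0 then t.eval x else u.eval x

/-- The number of tests made by a tree on the input `x`. -/
def Tree.cost {n : ℕ} : Tree n → (Fin n → ℤ) → ℕ
  | .answer _, _ => 0
  | .test c r s t u, x =>
      1 + if form c x + r < 0 then s.cost x else if form c x + r = 0 then t.cost x else u.cost x

/-- The inputs: sets of exactly `n` integers of absolute value at most `n ^ 3`, listed in
increasing order. -/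
def Input (n : ℕ) (x : Fin n → ℤ) : Prop := StrictMono x ∧ ∀ i, |x i| ≤ (n : ℤ) ^ 3

/-- There are three distinct elements `a, b, c` of the set with `a + b = c`. -/
def Has3Sum {n : ℕ} (x : Fin n → ℤ) : Prop :=
  ∃ a b c, a ≠ b ∧ a ≠ c ∧ b ≠ c ∧ x a + x b = x c

/-! ### The path of an input -/

/-- The supports of the forms tested on the path of `x`. -/
def Tree.path {n : ℕ} : Tree n → (Fin n → ℤ) → List (Finset (Fin n))
  | .answer _, _ => []
  | .test c r s t u, x => support c ::
      (if form c x + r < 0 then s.path x else if form c x + r = 0 then t.path x else u.path x)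

theorem Tree.path_length {n : ℕ} (T : Tree n) (x : Fin n → ℤ) : (T.path x).length = T.cost x := by
  induction T with
  | answer b => rfl
  | test c r s t u hs ht hu =>
    simp only [Tree.path, Tree.cost, List.length_cons]
    split_ifs <;> omega

/-- If the signs of all allowed forms whose support is not `F` agree at `x` and `y`, then the tree
gives the same answer on `x` and on `y`, or `F` is the support of a form on the path of `x`. -/
theorem Tree.eval_eq {n K L : ℕ} (T : Tree n) (hT : T.Allowed K L) (x y : Fin n → ℤ)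
    (F : Finset (Fin n))
    (h : ∀ (c : Fin n → ℤ) (r : ℤ), (support c).card ≤ 3 → (∀ i, |c i| ≤ K) → |r| ≤ L →
      support c ≠ F → Int.sign (form c x + r) = Int.sign (form c y + r))
    (hF : F ∉ T.path x) : T.eval x = T.eval y := by
  induction T with
  | answer b => rfl
  | test c r s t u hs ht hu =>
    simp only [Tree.Allowed] at hT
    obtain ⟨h3, hK, hL, hsA, htA, huA⟩ := hT
    simp only [Tree.path, List.mem_cons, not_or] at hF
    obtain ⟨hF1, hF2⟩ := hF
    have hsign := h c r h3 hK hL (fun h' => hF1 h'.symm)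
    simp only [Tree.eval]
    rcases lt_trichotomy (form c x + r) 0 with hx | hx | hx
    · have hy : form c y + r < 0 := by
        rw [Int.sign_eq_neg_one_of_neg hx] at hsign
        exact Int.sign_eq_neg_one_iff_neg.1 hsign.symm
      rw [if_pos hx, if_pos hy]
      rw [if_pos hx] at hF2
      exact hs hsA hF2
    · have hy : form c y + r = 0 := by
        rw [hx, Int.sign_zero] at hsign
        exact Int.sign_eq_zero_iff_zero.1 hsign.symm
      have hx' : ¬ form c x + r < 0 := by omega
      have hy' : ¬ form c y + r < 0 := by omega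
      rw [if_neg hx', if_pos hx, if_neg hy', if_pos hy]
      rw [if_neg hx', if_pos hx] at hF2
      exact ht htA hF2
    · have hy : 0 < form c y + r := by
        rw [Int.sign_eq_one_of_pos hx] at hsign
        exact Int.sign_eq_one_iff_pos.1 hsign.symm
      have hx' : ¬ form c x + r < 0 := by omega
      have hy' : ¬ form c y + r < 0 := by omega
      have hx2 : ¬ form c x + r = 0 := by omega
      have hy2 : ¬ form c y + r = 0 := by omega
      rw [if_neg hx', if_neg hx2, if_neg hy', if_neg hy2]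
      rw [if_neg hx', if_neg hx2] at hF2
      exact hu huA hF2

/-! ### Sums against a sparse coefficient vector -/

theorem sum_support {n : ℕ} (c g : Fin n → ℤ) : ∑ p, c p * g p = ∑ p ∈ support c, c p * g p := by
  rw [support, Finset.sum_filter]
  refine Finset.sum_congr rfl fun p _ => ?_
  by_cases h : c p = 0 <;> simp [h]

theorem abs_sum_le {n K : ℕ} (c g : Fin n → ℤ) (B : ℤ) (hB : 0 ≤ B) (h3 : (support c).card ≤ 3)
    (hK : ∀ i, |c i| ≤ K) (hg : ∀ i, |g i| ≤ B) : |∑ p, c p * g p| ≤ 3 * K * B := by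
  rw [sum_support]
  calc |∑ p ∈ support c, c p * g p| ≤ ∑ p ∈ support c, |c p * g p| :=
        Finset.abs_sum_le_sum_abs _ _
    _ ≤ ∑ p ∈ support c, (K : ℤ) * B := by
        refine Finset.sum_le_sum fun p _ => ?_
        rw [abs_mul]
        exact mul_le_mul (hK p) (hg p) (abs_nonneg _) (by positivity)
    _ = (support c).card * ((K : ℤ) * B) := by rw [Finset.sum_const, nsmul_eq_mul]
    _ ≤ 3 * ((K : ℤ) * B) := by
        refine mul_le_mul_of_nonneg_right (by exact_mod_cast h3) (by positivity)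
    _ = 3 * K * B := by ring

/-! ### The construction -/

/-- The group of an index. -/
def grp (m p : ℕ) : Fin 4 :=
  if p < m then 0 else if p < 2 * m then 1 else if p < 4 * m - 1 then 2 else 3

/-- The position of an index in its group. -/
def pos (m p : ℕ) : ℕ :=
  if p < m then p else if p < 2 * m then p - m else if p < 4 * m - 1 then p - 2 * m
    else p - (4 * m - 1)

def e1 : Fin 4 → ℤ
  | 0 => 1 | 1 => 0 | 2 => 1 | 3 => 0
def e2 : Fin 4 → ℤ
  | 0 => 0 | 1 => 1 | 2 => 1 | 3 => 0
def e4 : Fin 4 → ℤ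
  | 0 => 0 | 1 => 0 | 2 => 0 | 3 => 1

/-- The coarse part of the input. -/
def base (n K m p : ℕ) : ℤ :=
  e1 (grp m p) * (3 * K * n + 1) + e2 (grp m p) * (15 * K ^ 2 * n + 1) +
    e4 (grp m p) * (63 * K ^ 3 * n + 1) + pos m p

/-- The fine part of the input. -/
def pert (i j d : ℤ) (g : Fin 4) (t : ℤ) : ℤ :=
  match g with
  | 0 => 3 * (t - i) ^ 2 + d
  | 1 => 3 * (t - j) ^ 2
  | 2 => (t - i - j) ^ 2
  | 3 => 0

/-- The input. -/
def inp (n K m : ℕ) (i j d : ℤ) (p : Fin n) : ℤ :=
  (12 * K * m ^ 2 + 1) * base n K m p + pert i j d (grp m p) (pos m p)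

theorem grp_pos_cases (n m p : ℕ) (hm : 1 ≤ m) (hp : p < n) :
    (grp m p = 0 ∧ pos m p = p ∧ p < m) ∨
    (grp m p = 1 ∧ pos m p + m = p ∧ pos m p < m) ∨
    (grp m p = 2 ∧ pos m p + 2 * m = p ∧ pos m p < 2 * m - 1) ∨
    (grp m p = 3 ∧ pos m p + (4 * m - 1) = p ∧ pos m p < n) := by
  unfold grp pos
  split_ifs with h1 h2 h3
  · left; simp; omega
  · right; left; simp; omega
  · right; right; left; simp; omega
  · right; right; right; simp; omega

theorem pos_lt (n m p : ℕ) (hp : p < n) : pos m p < n := by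
  unfold pos
  split_ifs <;> omega

theorem pert_bound (m : ℕ) (hm : 1 ≤ m) (i j d : ℤ) (hi : 0 ≤ i) (hi' : i < m) (hj : 0 ≤ j)
    (hj' : j < m) (hd : 0 ≤ d) (hd' : d ≤ 1) (n p : ℕ) (hp : p < n) :
    0 ≤ pert i j d (grp m p) (pos m p) ∧ pert i j d (grp m p) (pos m p) ≤ 4 * m ^ 2 := by
  rcases grp_pos_cases n m p hm hp with ⟨h, h', h''⟩ | ⟨h, h', h''⟩ | ⟨h, h', h''⟩ | ⟨h, h', h''⟩
  · have h1 : (pos m p : ℤ) < m := by omega
    have h0 : (0 : ℤ) ≤ pos m p := by positivity
    generalize (pos m p : ℤ) = t at *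
    rw [h]; simp only [pert]
    constructor
    · positivity
    · have h2 : (t - i) ^ 2 ≤ (m - 1) ^ 2 := by
        apply sq_le_sq'
        · linarith
        · linarith
      have hm' : (1 : ℤ) ≤ m := by exact_mod_cast hm
      nlinarith
  · have h1 : (pos m p : ℤ) < m := by omega
    have h0 : (0 : ℤ) ≤ pos m p := by positivity
    generalize (pos m p : ℤ) = t at *
    rw [h]; simp only [pert]
    constructor
    · positivity
    · have h2 : (t - j) ^ 2 ≤ m ^ 2 := by
        apply sq_le_sq'
        · linarith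
        · linarith
      nlinarith [sq_nonneg (m : ℤ)]
  · have h1 : (pos m p : ℤ) < 2 * m - 1 := by omega
    have h0 : (0 : ℤ) ≤ pos m p := by positivity
    generalize (pos m p : ℤ) = t at *
    rw [h]; simp only [pert]
    constructor
    · positivity
    · have h2 : (t - i - j) ^ 2 ≤ (2 * m) ^ 2 := by
        apply sq_le_sq'
        · linarith
        · linarith
      linarith
  · rw [h]; simp only [pert]
    constructor
    · positivity
    · positivity

theorem base_lt (n K m p q : ℕ) (hK : 1 ≤ K) (hm : 1 ≤ m) (hmn : 4 * m ≤ n) (hpq : p < q)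
    (hq : q < n) : base n K m p + 1 ≤ base n K m q := by
  have hz1 : (n : ℤ) + 1 ≤ 3 * K * n + 1 := by
    have : (1 : ℤ) ≤ K := by exact_mod_cast hK
    nlinarith [this, (Nat.cast_nonneg n : (0 : ℤ) ≤ n)]
  have hz2 : 3 * K * n + 1 + n ≤ (15 * K ^ 2 * n + 1 : ℤ) := by
    have h1 : (1 : ℤ) ≤ K := by exact_mod_cast hK
    have h2 : (K : ℤ) ≤ K ^ 2 := by nlinarith
    have h0 : (0 : ℤ) ≤ n := Nat.cast_nonneg n
    nlinarith [mul_nonneg h0 (sub_nonneg.2 h2), mul_nonneg h0 (sub_nonneg.2 h1)]
  have hz4 : 3 * K * n + 1 + (15 * K ^ 2 * n + 1) + n ≤ (63 * K ^ 3 * n + 1 : ℤ) := by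
    have h1 : (1 : ℤ) ≤ K := by exact_mod_cast hK
    have h2 : (K : ℤ) ≤ K ^ 2 := by nlinarith
    have h3 : (K : ℤ) ^ 2 ≤ K ^ 3 := by nlinarith [sq_nonneg (K : ℤ)]
    have h0 : (1 : ℤ) ≤ n := by omega
    nlinarith [mul_nonneg (zero_le_one.trans h0) (sub_nonneg.2 h2),
      mul_nonneg (zero_le_one.trans h0) (sub_nonneg.2 h1),
      mul_nonneg (zero_le_one.trans h0) (sub_nonneg.2 h3)]
  have hp : p < n := hpq.trans hq
  have hn := pos_lt n m p hp
  have hn' := pos_lt n m q hq
  unfold base
  generalize (3 * K * n + 1 : ℤ) = z1 at *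
  generalize (15 * K ^ 2 * n + 1 : ℤ) = z2 at *
  generalize (63 * K ^ 3 * n + 1 : ℤ) = z4 at *
  rcases grp_pos_cases n m p hm hp with ⟨h, h', h''⟩ | ⟨h, h', h''⟩ | ⟨h, h', h''⟩ | ⟨h, h', h''⟩ <;>
  rcases grp_pos_cases n m q hm hq with ⟨k, k', k''⟩ | ⟨k, k', k''⟩ | ⟨k, k', k''⟩ | ⟨k, k', k''⟩ <;>
  (rw [h, k]; simp [e1, e2, e4]; omega)

theorem base_bound (n K m p : ℕ) (hK : 1 ≤ K) (hm : 1 ≤ m) (hmn : 4 * m ≤ n)
    (hp : p < n) : 0 ≤ base n K m p ∧ base n K m p ≤ 65 * K ^ 3 * n := by
  have hz1 : (n : ℤ) + 1 ≤ 3 * K * n + 1 := by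
    have : (1 : ℤ) ≤ K := by exact_mod_cast hK
    nlinarith [this, (Nat.cast_nonneg n : (0 : ℤ) ≤ n)]
  have hz2 : 3 * K * n + 1 + n ≤ (15 * K ^ 2 * n + 1 : ℤ) := by
    have h1 : (1 : ℤ) ≤ K := by exact_mod_cast hK
    have h2 : (K : ℤ) ≤ K ^ 2 := by nlinarith
    have h0 : (0 : ℤ) ≤ n := Nat.cast_nonneg n
    nlinarith [mul_nonneg h0 (sub_nonneg.2 h2), mul_nonneg h0 (sub_nonneg.2 h1)]
  have hz4 : 3 * K * n + 1 + (15 * K ^ 2 * n + 1) + n ≤ (63 * K ^ 3 * n + 1 : ℤ) := by
    have h1 : (1 : ℤ) ≤ K := by exact_mod_cast hK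
    have h2 : (K : ℤ) ≤ K ^ 2 := by nlinarith
    have h3 : (K : ℤ) ^ 2 ≤ K ^ 3 := by nlinarith [sq_nonneg (K : ℤ)]
    have h0 : (1 : ℤ) ≤ n := by omega
    nlinarith [mul_nonneg (zero_le_one.trans h0) (sub_nonneg.2 h2),
      mul_nonneg (zero_le_one.trans h0) (sub_nonneg.2 h1),
      mul_nonneg (zero_le_one.trans h0) (sub_nonneg.2 h3)]
  have hz5 : (63 * K ^ 3 * n + 1 : ℤ) + n ≤ 65 * K ^ 3 * n := by
    have h1 : (1 : ℤ) ≤ K := by exact_mod_cast hK
    have h3 : (1 : ℤ) ≤ K ^ 3 := one_le_pow₀ h1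
    have h0 : (1 : ℤ) ≤ n := by omega
    nlinarith [mul_nonneg (zero_le_one.trans h0) (sub_nonneg.2 h3)]
  have hn := pos_lt n m p hp
  unfold base
  generalize (3 * K * n + 1 : ℤ) = z1 at *
  generalize (15 * K ^ 2 * n + 1 : ℤ) = z2 at *
  generalize (63 * K ^ 3 * n + 1 : ℤ) = z4 at *
  generalize (65 * K ^ 3 * n : ℤ) = z5 at *
  rcases grp_pos_cases n m p hm hp with ⟨h, h', h''⟩ | ⟨h, h', h''⟩ | ⟨h, h', h''⟩ | ⟨h, h', h''⟩ <;>
  (rw [h]; simp [e1, e2, e4]; omega)

theorem sign_of_dominant (M a b : ℤ) (ha : a ≠ 0) (hb : |b| < M) :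
    Int.sign (M * a + b) = Int.sign a := by
  rw [abs_lt] at hb
  rcases lt_or_gt_of_ne ha with h | h
  · rw [Int.sign_eq_neg_one_of_neg h, Int.sign_eq_neg_one_iff_neg]
    nlinarith
  · rw [Int.sign_eq_one_of_pos h, Int.sign_eq_one_iff_pos]
    nlinarith

/-- The scaled input. -/
def sinp (n K L m : ℕ) (i j d : ℤ) (p : Fin n) : ℤ := (L + 1) * inp n K m i j d p

theorem inp_input (n K L m : ℕ) (hK : 1 ≤ K) (hm : 1 ≤ m) (h4 : 4 * m ≤ n)
    (hmn : 900 * K ^ 4 * (L + 1) * m ^ 2 ≤ n ^ 2)
    (i j d : ℤ) (hi : 0 ≤ i) (hi' : i < m) (hj : 0 ≤ j)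
    (hj' : j < m) (hd : 0 ≤ d) (hd' : d ≤ 1) : Input n (sinp n K L m i j d) := by
  have hKz : (1 : ℤ) ≤ K := by exact_mod_cast hK
  have hmz : (1 : ℤ) ≤ m := by exact_mod_cast hm
  have hM : (4 * m ^ 2 + 1 : ℤ) ≤ 12 * K * m ^ 2 + 1 := by nlinarith [sq_nonneg (m : ℤ)]
  constructor
  · intro p q hpq
    have h1 := base_lt n K m p q hK hm h4 hpq q.2
    have h2 := pert_bound m hm i j d hi hi' hj hj' hd hd' n p p.2
    have h3 := pert_bound m hm i j d hi hi' hj hj' hd hd' n q q.2
    have h5 : inp n K m i j d p < inp n K m i j d q := by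
      unfold inp
      nlinarith
    have h6 : (0 : ℤ) < L + 1 := by positivity
    unfold sinp
    exact mul_lt_mul_of_pos_left h5 h6
  · intro p
    have h1 := base_bound n K m p hK hm h4 p.2
    have h2 := pert_bound m hm i j d hi hi' hj hj' hd hd' n p p.2
    have h5 : (12 * K * m ^ 2 + 1 : ℤ) ≤ 13 * K * m ^ 2 := by nlinarith [sq_nonneg (m : ℤ)]
    have h6 : (12 * K * m ^ 2 + 1 : ℤ) * base n K m p ≤ (13 * K * m ^ 2) * (65 * K ^ 3 * n) :=
      mul_le_mul h5 h1.2 h1.1 (by positivity)
    have h8 : (900 * K ^ 4 * (L + 1) * m ^ 2 : ℤ) ≤ n ^ 2 := by exact_mod_cast hmn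
    have h9 : (900 * K ^ 4 * (L + 1) * m ^ 2 : ℤ) * n ≤ n ^ 2 * n :=
      mul_le_mul_of_nonneg_right h8 (by positivity)
    have h10 : (4 * m ^ 2 : ℤ) ≤ 4 * K ^ 4 * m ^ 2 * n := by
      have : (1 : ℤ) ≤ K ^ 4 := one_le_pow₀ hKz
      have hn : (1 : ℤ) ≤ n := by omega
      have : (1 : ℤ) ≤ K ^ 4 * n := by nlinarith
      nlinarith [sq_nonneg (m : ℤ)]
    have h12 : 0 ≤ (12 * K * m ^ 2 + 1 : ℤ) * base n K m p := mul_nonneg (by positivity) h1.1
    have h13 : 0 ≤ inp n K m i j d p := by
      unfold inp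
      linarith
    have h14 : inp n K m i j d p ≤ 849 * K ^ 4 * m ^ 2 * n := by
      unfold inp
      linarith
    have h15 : (L + 1) * inp n K m i j d p ≤ (L + 1) * (849 * K ^ 4 * m ^ 2 * n) :=
      mul_le_mul_of_nonneg_left h14 (by positivity)
    have h16 : (0 : ℤ) ≤ (L + 1) * (K ^ 4 * m ^ 2 * n) := by positivity
    unfold sinp
    rw [abs_of_nonneg (by positivity)]
    linarith

theorem sign_scale (L : ℕ) (N r : ℤ) (hr : |r| ≤ L) (hN : N ≠ 0) :
    Int.sign ((L + 1) * N + r) = Int.sign N :=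
  sign_of_dominant _ _ _ hN (by linarith)

theorem form_sinp (n K L m : ℕ) (i j d : ℤ) (c : Fin n → ℤ) :
    form c (sinp n K L m i j d) = (L + 1) * form c (inp n K m i j d) := by
  unfold form sinp
  rw [Finset.mul_sum]
  exact Finset.sum_congr rfl fun p _ => by ring

/-! ### Group sums -/

/-- Elements of the support of `c` in the group `g`. -/
def sg {n : ℕ} (c : Fin n → ℤ) (G : Fin n → Fin 4) (g : Fin 4) : Finset (Fin n) :=
  (support c).filter fun p => G p = g

theorem sum_group {n : ℕ} (c f : Fin n → ℤ) (G : Fin n → Fin 4) (φ : Fin 4 → ℤ) :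
    ∑ p, c p * (φ (G p) * f p) = ∑ g, φ g * ∑ p ∈ sg c G g, c p * f p := by
  rw [sum_support, ← Finset.sum_fiberwise (support c) G]
  refine Finset.sum_congr rfl fun g _ => ?_
  rw [Finset.mul_sum]
  refine Finset.sum_congr rfl fun p hp => ?_
  rw [sg, Finset.mem_filter] at hp
  rw [hp.2]
  ring

theorem sum_group' {n : ℕ} (c : Fin n → ℤ) (G : Fin n → Fin 4) (h : Fin 4 → Fin n → ℤ) :
    ∑ p, c p * h (G p) p = ∑ g, ∑ p ∈ sg c G g, c p * h g p := by
  rw [sum_support, ← Finset.sum_fiberwise (support c) G]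
  refine Finset.sum_congr rfl fun g _ => ?_
  refine Finset.sum_congr rfl fun p hp => ?_
  rw [sg, Finset.mem_filter] at hp
  rw [hp.2]

theorem two_le {n : ℕ} (c f : Fin n → ℤ) (G : Fin n → Fin 4) (g : Fin 4)
    (h0 : ∑ p ∈ sg c G g, c p = 0) (h1 : ∑ p ∈ sg c G g, c p * f p ≠ 0) :
    2 ≤ (sg c G g).card := by
  by_contra hcon
  have h : (sg c G g).card = 0 ∨ (sg c G g).card = 1 := by omega
  rcases h with h | h
  · rw [Finset.card_eq_zero] at h
    rw [h] at h1
    exact h1 (Finset.sum_empty)
  · rw [Finset.card_eq_one] at h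
    obtain ⟨p, hp⟩ := h
    rw [hp, Finset.sum_singleton] at h0
    have : p ∈ sg c G g := by rw [hp]; exact Finset.mem_singleton_self p
    rw [sg, Finset.mem_filter, support, Finset.mem_filter] at this
    exact this.1.2 h0

theorem sum_card {n : ℕ} (c : Fin n → ℤ) (G : Fin n → Fin 4) :
    ∑ g, (sg c G g).card = (support c).card := by
  rw [Finset.card_eq_sum_card_fiberwise (f := G) (t := Finset.univ) (fun _ _ => Finset.mem_univ _)]
  rfl

theorem zero_groups {n : ℕ} (c f : Fin n → ℤ) (G : Fin n → Fin 4) (h3 : (support c).card ≤ 3)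
    (h0 : ∀ g, ∑ p ∈ sg c G g, c p = 0) (hs : ∑ g, ∑ p ∈ sg c G g, c p * f p = 0) (g : Fin 4) :
    ∑ p ∈ sg c G g, c p * f p = 0 := by
  by_contra hcon
  have h2 := two_le c f G g (h0 g) hcon
  have hex : ∃ g' ∈ Finset.univ.erase g, ∑ p ∈ sg c G g', c p * f p ≠ 0 := by
    by_contra hne
    push Not at hne
    rw [← Finset.add_sum_erase _ _ (Finset.mem_univ g), Finset.sum_eq_zero hne, add_zero] at hs
    exact hcon hs
  obtain ⟨g', hg', hne⟩ := hex
  have h2' := two_le c f G g' (h0 g') hne
  have h4 : (sg c G g).card + (sg c G g').card ≤ (support c).card := by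
    rw [← sum_card c G, ← Finset.add_sum_erase _ _ (Finset.mem_univ g)]
    exact Nat.add_le_add_left
      (Finset.single_le_sum (f := fun g => (sg c G g).card) (fun _ _ => Nat.zero_le _) hg') _
  omega

/-- The critical triple of indices. -/
def crit (n m i j : ℕ) : Finset (Fin n) :=
  Finset.univ.filter fun p => (p : ℕ) = i ∨ (p : ℕ) = m + j ∨ (p : ℕ) = 2 * m + (i + j)

theorem form_inp (n K m : ℕ) (i j d : ℤ) (c : Fin n → ℤ) :
    form c (inp n K m i j d) = (12 * K * m ^ 2 + 1) * (∑ p : Fin n, c p * base n K m p) +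
      ∑ p : Fin n, c p * pert i j d (grp m p) (pos m p) := by
  unfold form inp
  rw [Finset.mul_sum, ← Finset.sum_add_distrib]
  exact Finset.sum_congr rfl fun p _ => by ring

theorem abs_lt_of_mul (C z b : ℤ) (hz : 0 < z) (h : |b| < z) (he : C * z + b = 0) : C = 0 := by
  by_contra hne
  have h1 : 1 ≤ |C| := Int.one_le_abs hne
  have h2 : |C * z| = |b| := by
    have : C * z = -b := by linarith
    rw [this, abs_neg]
  rw [abs_mul, abs_of_pos hz] at h2
  nlinarith

theorem coef_zero (K n : ℤ) (hK : 1 ≤ K) (hn : 1 ≤ n) (C1 C2 C4 C3 : ℤ) (h1 : |C1| ≤ 3 * K)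
    (h2 : |C2| ≤ 3 * K) (h3 : |C3| ≤ 3 * K * n)
    (h : C1 * (3 * K * n + 1) + C2 * (15 * K ^ 2 * n + 1) + C4 * (63 * K ^ 3 * n + 1) + C3 = 0) :
    C4 = 0 ∧ C2 = 0 ∧ C1 = 0 ∧ C3 = 0 := by
  have hk2 : K ≤ K ^ 2 := by nlinarith
  have hk3 : K ^ 2 ≤ K ^ 3 := by nlinarith [sq_nonneg K]
  have b0 : 0 < K := by linarith
  have b00 : 0 < n := by linarith
  have b1 : K ^ 2 * n ≤ K ^ 3 * n := mul_le_mul_of_nonneg_right hk3 b00.le
  have b2 : K * n ≤ K ^ 2 * n := mul_le_mul_of_nonneg_right hk2 b00.le
  have b3 : K ≤ K * n := by nlinarith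
  have a1 : |C1 * (3 * K * n + 1)| ≤ 9 * (K ^ 2 * n) + 3 * K := by
    rw [abs_mul, abs_of_pos (by positivity : 0 < 3 * K * n + 1)]
    have := mul_le_mul_of_nonneg_right h1 (by positivity : 0 ≤ 3 * K * n + 1)
    linarith
  have a2 : |C2 * (15 * K ^ 2 * n + 1)| ≤ 45 * (K ^ 3 * n) + 3 * K := by
    rw [abs_mul, abs_of_pos (by positivity : 0 < 15 * K ^ 2 * n + 1)]
    have := mul_le_mul_of_nonneg_right h2 (by positivity : 0 ≤ 15 * K ^ 2 * n + 1)
    linarith
  have c4 : C4 = 0 := by
    refine abs_lt_of_mul C4 (63 * K ^ 3 * n + 1)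
      (C1 * (3 * K * n + 1) + C2 * (15 * K ^ 2 * n + 1) + C3) (by positivity) ?_ (by linarith)
    have a4 := abs_add_le (C1 * (3 * K * n + 1) + C2 * (15 * K ^ 2 * n + 1)) C3
    have a5 := abs_add_le (C1 * (3 * K * n + 1)) (C2 * (15 * K ^ 2 * n + 1))
    linarith
  rw [c4] at h
  have c2 : C2 = 0 := by
    refine abs_lt_of_mul C2 (15 * K ^ 2 * n + 1)
      (C1 * (3 * K * n + 1) + C3) (by positivity) ?_ (by linarith)
    have a4 := abs_add_le (C1 * (3 * K * n + 1)) C3
    linarith
  rw [c2] at h
  have c1 : C1 = 0 := by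
    refine abs_lt_of_mul C1 (3 * K * n + 1) C3 (by positivity) ?_ (by linarith)
    linarith
  rw [c1] at h
  exact ⟨c4, c2, c1, by linarith⟩

theorem sign_form (n K m i j : ℕ) (hK : 1 ≤ K) (hm : 1 ≤ m) (hn : 1 ≤ n)
    (hi : i < m) (hj : j < m) (c : Fin n → ℤ) (h3 : (support c).card ≤ 3)
    (hc : ∀ p, |c p| ≤ K) (hne : support c ≠ crit n m i j) :
    Int.sign (form c (inp n K m 0 0 1)) = Int.sign (form c (inp n K m i j 0)) := by
  have hKz : (1 : ℤ) ≤ K := by exact_mod_cast hK
  have hmz : (1 : ℤ) ≤ m := by exact_mod_cast hm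
  have hnz : (1 : ℤ) ≤ n := by exact_mod_cast hn
  set G : Fin n → Fin 4 := fun p => grp m p with hG
  set f : Fin n → ℤ := fun p => (pos m p : ℤ) with hf
  set s : Fin 4 → ℤ := fun g => ∑ p ∈ sg c G g, c p with hs
  set t : Fin 4 → ℤ := fun g => ∑ p ∈ sg c G g, c p * f p with ht
  -- bounds on the fine part
  have hb1 : |∑ p : Fin n, c p * pert 0 0 1 (grp m p) (pos m p)| < 12 * K * m ^ 2 + 1 := by
    have := abs_sum_le c (fun p => pert 0 0 1 (grp m p) (pos m p)) (4 * m ^ 2) (by positivity)
      h3 hc (fun p => by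
        have := pert_bound m hm 0 0 1 le_rfl (by omega) le_rfl (by omega) (by norm_num)
          (by norm_num) n p p.2
        rw [abs_of_nonneg this.1]
        exact this.2)
    linarith
  have hb2 : |∑ p : Fin n, c p * pert i j 0 (grp m p) (pos m p)| < 12 * K * m ^ 2 + 1 := by
    have := abs_sum_le c (fun p => pert i j 0 (grp m p) (pos m p)) (4 * m ^ 2) (by positivity)
      h3 hc (fun p => by
        have := pert_bound m hm i j 0 (by positivity) (by omega) (by positivity) (by omega)
          (by norm_num) (by norm_num) n p p.2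
        rw [abs_of_nonneg this.1]
        exact this.2)
    linarith
  rw [form_inp, form_inp]
  by_cases hB : ∑ p : Fin n, c p * base n K m p = 0
  swap
  · rw [sign_of_dominant _ _ _ hB hb1, sign_of_dominant _ _ _ hB hb2]
  rw [hB, mul_zero, zero_add, zero_add]
  -- the four coefficients vanish
  have hC : ∀ φ : Fin 4 → ℤ, ∑ p : Fin n, c p * φ (G p) = ∑ g, φ g * s g := by
    intro φ
    have := sum_group c (fun _ => 1) G φ
    simpa using this
  have hT : ∑ p : Fin n, c p * f p = ∑ g, t g := by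
    have := sum_group c f G (fun _ => 1)
    simpa using this
  have hbase : ∑ p : Fin n, c p * base n K m p =
      (∑ g, e1 g * s g) * (3 * K * n + 1) + (∑ g, e2 g * s g) * (15 * K ^ 2 * n + 1) +
      (∑ g, e4 g * s g) * (63 * K ^ 3 * n + 1) + ∑ g, t g := by
    rw [← hC, ← hC, ← hC, ← hT, Finset.sum_mul, Finset.sum_mul, Finset.sum_mul,
      ← Finset.sum_add_distrib, ← Finset.sum_add_distrib, ← Finset.sum_add_distrib]
    refine Finset.sum_congr rfl fun p _ => ?_
    simp only [base, hG, hf]
    ring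
  have hE : ∀ φ : Fin 4 → ℤ, (∀ g, |φ g| ≤ 1) → |∑ g, φ g * s g| ≤ 3 * K := by
    intro φ hφ
    rw [← hC]
    have := abs_sum_le c (fun p => φ (G p)) 1 (by norm_num) h3 hc (fun p => hφ _)
    linarith
  have hE1 : |∑ g, e1 g * s g| ≤ 3 * K := hE e1 (by intro g; fin_cases g <;> simp [e1])
  have hE2 : |∑ g, e2 g * s g| ≤ 3 * K := hE e2 (by intro g; fin_cases g <;> simp [e2])
  have hE3 : |∑ g, t g| ≤ 3 * K * n := by
    rw [← hT]
    refine abs_sum_le c f n (by positivity) h3 hc (fun p => ?_)
    have := pos_lt n m p p.2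
    simp only [hf]
    rw [abs_of_nonneg (by positivity)]
    exact_mod_cast this.le
  rw [hbase] at hB
  obtain ⟨hz4, hz2, hz1, hz3⟩ := coef_zero K n hKz hnz _ _ _ _ hE1 hE2 hE3 hB
  clear hE1 hE2 hE3 hB hbase hE hb1 hb2
  simp only [Fin.sum_univ_four, e1, e2, e4] at hz1 hz2 hz4
  ring_nf at hz1 hz2 hz4
  have hpert : ∀ i j d : ℤ, ∑ p : Fin n, c p * pert i j d (grp m p) (pos m p) =
      ∑ g, ∑ p ∈ sg c G g, c p * pert i j d g (f p) := by
    intro i j d
    exact sum_group' c G (fun g p => pert i j d g (f p))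
  rw [hpert, hpert]
  by_cases h2 : s 2 = 0
  · -- all groups are balanced
    have hs0 : ∀ g, s g = 0 := by
      intro g
      fin_cases g
      · show s 0 = 0
        linarith
      · show s 1 = 0
        linarith
      · exact h2
      · exact hz4
    have ht0 : ∀ g, t g = 0 := zero_groups c f G h3 hs0 hz3
    congr 1
    refine Finset.sum_congr rfl fun g _ => ?_
    have key : ∀ a b : ℤ, ∑ p ∈ sg c G g, c p * (a * f p + b) = 0 := by
      intro a b
      have : ∑ p ∈ sg c G g, c p * (a * f p + b) = a * t g + b * s g := by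
        simp only [ht, hs, Finset.mul_sum, ← Finset.sum_add_distrib]
        exact Finset.sum_congr rfl fun p _ => by ring
      rw [this, ht0, hs0]
      ring
    rw [← sub_eq_zero, ← Finset.sum_sub_distrib]
    fin_cases g
    · refine Eq.trans ?_ (key (6 * i) (1 - 3 * i ^ 2))
      refine Finset.sum_congr rfl fun p _ => ?_
      simp [pert]
      ring
    · refine Eq.trans ?_ (key (6 * j) (- 3 * j ^ 2))
      refine Finset.sum_congr rfl fun p _ => ?_
      simp [pert]
      ring
    · refine Eq.trans ?_ (key (2 * (i + j)) (- (i + j) ^ 2))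
      refine Finset.sum_congr rfl fun p _ => ?_
      simp [pert]
      ring
    · refine Eq.trans ?_ (key 0 0)
      refine Finset.sum_congr rfl fun p _ => ?_
      simp [pert]
  · -- one element in each of the three groups
    have hcard := sum_card c G
    rw [Fin.sum_univ_four] at hcard
    have hnc : ∀ g, s g ≠ 0 → 1 ≤ (sg c G g).card := by
      intro g hg
      rw [Nat.one_le_iff_ne_zero]
      intro h0
      rw [Finset.card_eq_zero] at h0
      apply hg
      simp only [hs]
      rw [h0, Finset.sum_empty]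
    have k0 := hnc 0 (fun h => h2 (by linarith))
    have k1 := hnc 1 (fun h => h2 (by linarith))
    have k2 := hnc 2 h2
    obtain ⟨p, hp⟩ := Finset.card_eq_one.1 (show (sg c G 0).card = 1 by omega)
    obtain ⟨q, hq⟩ := Finset.card_eq_one.1 (show (sg c G 1).card = 1 by omega)
    obtain ⟨r, hr⟩ := Finset.card_eq_one.1 (show (sg c G 2).card = 1 by omega)
    have h33 := Finset.card_eq_zero.1 (show (sg c G 3).card = 0 by omega)
    have s0 : s 0 = c p := by simp only [hs]; rw [hp, Finset.sum_singleton]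
    have s1 : s 1 = c q := by simp only [hs]; rw [hq, Finset.sum_singleton]
    have s2 : s 2 = c r := by simp only [hs]; rw [hr, Finset.sum_singleton]
    have t0 : t 0 = c p * f p := by simp only [ht]; rw [hp, Finset.sum_singleton]
    have t1 : t 1 = c q * f q := by simp only [ht]; rw [hq, Finset.sum_singleton]
    have t2 : t 2 = c r * f r := by simp only [ht]; rw [hr, Finset.sum_singleton]
    have t3 : t 3 = 0 := by simp only [ht]; rw [h33, Finset.sum_empty]
    rw [Fin.sum_univ_four, t0, t1, t2, t3] at hz3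
    rw [s0, s2] at hz1
    rw [s1, s2] at hz2
    rw [s2] at h2
    have cp : c p = - c r := by linarith
    have cq : c q = - c r := by linarith
    have hfr : f r = f p + f q := by
      rw [cp, cq] at hz3
      have : c r * (f r - (f p + f q)) = 0 := by linarith
      rcases mul_eq_zero.1 this with h | h
      · exact absurd h h2
      · linarith
    simp only [Fin.sum_univ_four, hp, hq, hr, h33, Finset.sum_singleton, Finset.sum_empty, pert]
    rw [cp, cq, hfr]
    have e1 : -c r * (3 * (f p - 0) ^ 2 + 1) + -c r * (3 * (f q - 0) ^ 2) +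
        c r * (f p + f q - 0 - 0) ^ 2 + 0 =
        (-c r) * (f p ^ 2 + f q ^ 2 + (f p - f q) ^ 2 + 1) := by ring
    have e2 : -c r * (3 * (f p - i) ^ 2 + 0) + -c r * (3 * (f q - j) ^ 2) +
        c r * (f p + f q - i - j) ^ 2 + 0 =
        (-c r) * ((f p - i) ^ 2 + (f q - j) ^ 2 + (f p - i - (f q - j)) ^ 2) := by ring
    rw [e1, e2, Int.sign_mul, Int.sign_mul]
    congr 1
    rw [Int.sign_eq_one_of_pos (by positivity), Int.sign_eq_one_of_pos]
    by_contra hcon
    have hpi : f p - i = 0 := by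
      by_contra h
      have : 0 < (f p - i) ^ 2 := by positivity
      nlinarith [sq_nonneg (f q - j), sq_nonneg (f p - i - (f q - j))]
    have hqj : f q - j = 0 := by
      by_contra h
      have : 0 < (f q - j) ^ 2 := by positivity
      nlinarith [sq_nonneg (f p - i), sq_nonneg (f p - i - (f q - j))]
    -- the support is the critical triple
    have mp : p ∈ sg c G 0 := by rw [hp]; exact Finset.mem_singleton_self p
    have mq : q ∈ sg c G 1 := by rw [hq]; exact Finset.mem_singleton_self q
    have mr : r ∈ sg c G 2 := by rw [hr]; exact Finset.mem_singleton_self r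
    rw [sg, Finset.mem_filter] at mp mq mr
    simp only [hf, hG] at hpi hqj hfr mp mq mr
    have vp : (p : ℕ) = i := by
      rcases grp_pos_cases n m p hm p.2 with h | h | h | h
      · omega
      · rw [h.1] at mp; exact absurd mp.2 (by decide)
      · rw [h.1] at mp; exact absurd mp.2 (by decide)
      · rw [h.1] at mp; exact absurd mp.2 (by decide)
    have vq : (q : ℕ) = m + j := by
      rcases grp_pos_cases n m q hm q.2 with h | h | h | h
      · rw [h.1] at mq; exact absurd mq.2 (by decide)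
      · omega
      · rw [h.1] at mq; exact absurd mq.2 (by decide)
      · rw [h.1] at mq; exact absurd mq.2 (by decide)
    have vr : (r : ℕ) = 2 * m + (i + j) := by
      rcases grp_pos_cases n m r hm r.2 with h | h | h | h
      · rw [h.1] at mr; exact absurd mr.2 (by decide)
      · rw [h.1] at mr; exact absurd mr.2 (by decide)
      · omega
      · rw [h.1] at mr; exact absurd mr.2 (by decide)
    apply hne
    ext a
    rw [crit, Finset.mem_filter]
    simp only [Finset.mem_univ, true_and]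
    constructor
    · intro ha
      have hga : a ∈ sg c G (G a) := by rw [sg, Finset.mem_filter]; exact ⟨ha, rfl⟩
      generalize G a = g at hga
      fin_cases g
      · left
        have : a ∈ sg c G 0 := hga
        rw [hp, Finset.mem_singleton] at this
        rw [this]; exact vp
      · right; left
        have : a ∈ sg c G 1 := hga
        rw [hq, Finset.mem_singleton] at this
        rw [this]; exact vq
      · right; right
        have : a ∈ sg c G 2 := hga
        rw [hr, Finset.mem_singleton] at this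
        rw [this]; exact vr
      · exfalso
        have : a ∈ sg c G 3 := hga
        rw [h33] at this
        exact absurd this (Finset.notMem_empty a)
    · rintro (h | h | h)
      · have : a = p := Fin.ext (by omega)
        rw [this]; exact mp.1
      · have : a = q := Fin.ext (by omega)
        rw [this]; exact mq.1
      · have : a = r := Fin.ext (by omega)
        rw [this]; exact mr.1

theorem sign_affine (n K L m i j : ℕ) (hK : 1 ≤ K) (hm : 1 ≤ m) (hn : 1 ≤ n)
    (hi : i < m) (hj : j < m) (c : Fin n → ℤ) (r : ℤ) (h3 : (support c).card ≤ 3)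
    (hc : ∀ p, |c p| ≤ K) (hr : |r| ≤ L) (hne : support c ≠ crit n m i j) :
    Int.sign (form c (sinp n K L m 0 0 1) + r) = Int.sign (form c (sinp n K L m i j 0) + r) := by
  have h := sign_form n K m i j hK hm hn hi hj c h3 hc hne
  rw [form_sinp, form_sinp]
  by_cases h0 : form c (inp n K m 0 0 1) = 0
  · rw [h0, Int.sign_zero] at h
    rw [h0, Int.sign_eq_zero_iff_zero.1 h.symm]
  · have h1 : form c (inp n K m i j 0) ≠ 0 := by
      intro h1
      rw [h1, Int.sign_zero] at h
      exact h0 (Int.sign_eq_zero_iff_zero.1 h)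
    rw [sign_scale L _ r hr h0, sign_scale L _ r hr h1, h]

/-! ### 3SUM for the constructed inputs -/

theorem has3Sum_sinp (n K L m : ℕ) (i j d : ℤ) :
    Has3Sum (sinp n K L m i j d) ↔ Has3Sum (inp n K m i j d) := by
  have hL : (L + 1 : ℤ) ≠ 0 := by positivity
  unfold Has3Sum sinp
  constructor
  · rintro ⟨a, b, c, h1, h2, h3, h⟩
    refine ⟨a, b, c, h1, h2, h3, mul_left_cancel₀ hL ?_⟩
    linarith
  · rintro ⟨a, b, c, h1, h2, h3, h⟩
    refine ⟨a, b, c, h1, h2, h3, ?_⟩
    rw [← mul_add, h]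

theorem not_has3Sum (n K m : ℕ) (hK : 1 ≤ K) (hm : 1 ≤ m) (hn : 1 ≤ n) :
    ¬ Has3Sum (inp n K m 0 0 1) := by
  have hKz : (1 : ℤ) ≤ K := by exact_mod_cast hK
  have hmz : (1 : ℤ) ≤ m := by exact_mod_cast hm
  have hnz : (1 : ℤ) ≤ n := by exact_mod_cast hn
  rintro ⟨a, b, c, -, -, -, h⟩
  have pa := pert_bound m hm 0 0 1 le_rfl (by omega) le_rfl (by omega) (by norm_num)
          (by norm_num) n a a.2
  have pb := pert_bound m hm 0 0 1 le_rfl (by omega) le_rfl (by omega) (by norm_num)
          (by norm_num) n b b.2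
  have pc := pert_bound m hm 0 0 1 le_rfl (by omega) le_rfl (by omega) (by norm_num)
          (by norm_num) n c c.2
  have qa := pos_lt n m a a.2
  have qb := pos_lt n m b b.2
  have qc := pos_lt n m c c.2
  have hM : (8 * m ^ 2 : ℤ) < 12 * K * m ^ 2 + 1 := by nlinarith [sq_nonneg (m : ℤ)]
  unfold inp at h
  have hB : base n K m a + base n K m b - base n K m c = 0 := by
    refine abs_lt_of_mul _ (12 * K * m ^ 2 + 1 : ℤ)
      (pert 0 0 1 (grp m a) (pos m a) + pert 0 0 1 (grp m b) (pos m b) -
        pert 0 0 1 (grp m c) (pos m c)) (by positivity) ?_ (by linarith)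
    rw [abs_lt]
    constructor <;> linarith
  have hP : pert 0 0 1 (grp m a) (pos m a) + pert 0 0 1 (grp m b) (pos m b) -
        pert 0 0 1 (grp m c) (pos m c) = 0 := by
    have : base n K m c = base n K m a + base n K m b := by linarith
    rw [this] at h
    linarith
  unfold base at hB
  have hle : ∀ e : Fin 4 → ℤ, (∀ g, 0 ≤ e g ∧ e g ≤ 1) →
      |e (grp m a) + e (grp m b) - e (grp m c)| ≤ 3 * K := by
    intro e he
    have ha := he (grp m a)
    have hb := he (grp m b)
    have hc := he (grp m c)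
    rw [abs_le]
    constructor <;> linarith
  obtain ⟨h4, h2, h1, h3⟩ := coef_zero K n hKz hnz
    (e1 (grp m a) + e1 (grp m b) - e1 (grp m c)) (e2 (grp m a) + e2 (grp m b) - e2 (grp m c))
    (e4 (grp m a) + e4 (grp m b) - e4 (grp m c)) (pos m a + pos m b - pos m c)
    (hle e1 (by intro g; fin_cases g <;> simp [e1]))
    (hle e2 (by intro g; fin_cases g <;> simp [e2]))
    (by
      have : (0 : ℤ) ≤ pos m a := by positivity
      have : (0 : ℤ) ≤ pos m b := by positivity
      have : (0 : ℤ) ≤ pos m c := by positivity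
      have : (n : ℤ) ≤ K * n := by nlinarith
      rw [abs_le]
      constructor <;> nlinarith) (by linarith)
  generalize (pos m a : ℤ) = x at *
  generalize (pos m b : ℤ) = y at *
  have hz : (pos m c : ℤ) = x + y := by linarith
  rw [hz] at hP
  generalize grp m a = ga at *
  generalize grp m b = gb at *
  generalize grp m c = gc at *
  clear pa pb pc hle hB h h3 hM
  fin_cases ga <;> fin_cases gb <;> fin_cases gc <;> simp [e1, e2, e4] at h1 h2 h4 <;>
    simp [pert] at hP <;> nlinarith [sq_nonneg x, sq_nonneg y, sq_nonneg (x - y)]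

theorem has3Sum (n K m i j : ℕ) (hmn : 4 * m ≤ n) (hi : i < m) (hj : j < m) :
    Has3Sum (inp n K m i j 0) := by
  refine ⟨⟨i, by omega⟩, ⟨m + j, by omega⟩, ⟨2 * m + (i + j), by omega⟩, ?_, ?_, ?_, ?_⟩
  · intro h; have := congrArg Fin.val h; simp at this; omega
  · intro h; have := congrArg Fin.val h; simp at this; omega
  · intro h; have := congrArg Fin.val h; simp at this; omega
  · have g1 : grp m i = 0 := by unfold grp; rw [if_pos hi]
    have g2 : grp m (m + j) = 1 := by
      unfold grp; rw [if_neg (by omega), if_pos (by omega)]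
    have g3 : grp m (2 * m + (i + j)) = 2 := by
      unfold grp; rw [if_neg (by omega), if_neg (by omega), if_pos (by omega)]
    have p1 : pos m i = i := by unfold pos; rw [if_pos hi]
    have p2 : pos m (m + j) = j := by
      unfold pos; rw [if_neg (by omega), if_pos (by omega)]; omega
    have p3 : pos m (2 * m + (i + j)) = i + j := by
      unfold pos; rw [if_neg (by omega), if_neg (by omega), if_pos (by omega)]; omega
    simp only [inp, base, g1, g2, g3, p1, p2, p3, e1, e2, e4, pert]
    push_cast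
    ring

theorem crit_inj (n m i j i' j' : ℕ) (hmn : 4 * m ≤ n) (hi : i < m) (hj : j < m) (hi' : i' < m)
    (hj' : j' < m) (h : crit n m i j = crit n m i' j') : i = i' ∧ j = j' := by
  have h1 : (⟨i, by omega⟩ : Fin n) ∈ crit n m i' j' := by
    rw [← h, crit, Finset.mem_filter]; simp
  have h2 : (⟨m + j, by omega⟩ : Fin n) ∈ crit n m i' j' := by
    rw [← h, crit, Finset.mem_filter]; simp
  rw [crit, Finset.mem_filter] at h1 h2
  simp only [Finset.mem_univ, true_and] at h1 h2
  omega

theorem count (n K L m : ℕ) (hK : 1 ≤ K) (hm : 1 ≤ m) (hmn : 4 * m ≤ n) (T : Tree n)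
    (hT : T.Allowed K L) :
    (Finset.univ.filter fun q : Fin m × Fin m =>
      T.eval (sinp n K L m 0 0 1) ≠ T.eval (sinp n K L m q.1 q.2 0)).card ≤
      T.cost (sinp n K L m 0 0 1) := by
  classical
  rw [← T.path_length]
  refine le_trans ?_ (List.toFinset_card_le _)
  refine Finset.card_le_card_of_injOn (fun q => crit n m q.1 q.2) ?_ ?_
  · intro q hq
    rw [Finset.mem_coe, Finset.mem_filter] at hq
    rw [Finset.mem_coe, List.mem_toFinset]
    by_contra hcon
    exact hq.2 (T.eval_eq hT _ _ (crit n m q.1 q.2)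
      (fun c r h3 hc hr hne =>
        sign_affine n K L m q.1 q.2 hK hm (by omega) q.1.2 q.2.2 c r h3 hc hr hne) hcon)
  · intro q _ q' _ h
    have := crit_inj n m q.1 q.2 q'.1 q'.2 hmn q.1.2 q.2.2 q'.1.2 q'.2.2 h
    exact Prod.ext (Fin.ext this.1) (Fin.ext this.2)

theorem easy_input (n : ℕ) : ∃ x : Fin n → ℤ, Input n x ∧ ¬ Has3Sum x := by
  refine ⟨fun i => n ^ 2 + i, ⟨?_, ?_⟩, ?_⟩
  · intro i j h
    have : (i : ℕ) < j := h
    simp only
    omega
  · intro i
    have hi : (i : ℤ) + 1 ≤ n := by have := i.2; omega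
    have hi0 : (0 : ℤ) ≤ i := by positivity
    have hn : (1 : ℤ) ≤ n := by linarith
    rw [abs_of_nonneg (by positivity)]
    have : (0 : ℤ) ≤ ((n : ℤ) - 1) * ((n : ℤ) ^ 2 - 1) := by
      apply mul_nonneg
      · linarith
      · nlinarith
    nlinarith
  · rintro ⟨a, b, c, -, -, -, h⟩
    have ha : (0 : ℤ) ≤ a := by positivity
    have hb : (0 : ℤ) ≤ b := by positivity
    have hc : (c : ℤ) + 1 ≤ n := by have := c.2; omega
    have hc0 : (0 : ℤ) ≤ c := by positivity
    have hn : (1 : ℤ) ≤ n := by linarith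
    simp only at h
    nlinarith

/-- Let `n`, `K ≥ 1`, `L`, `m` be natural numbers with `900 K^4 (L + 1) m^2 ≤ n^2`. Consider a
randomized algorithm for 3SUM on sets of exactly `n` integers in `{-n^3, ..., n^3}` (given in
increasing order), that is, a random decision tree, whose tests are signs of integer affine forms
in at most three of the input numbers, with coefficients of absolute value at most `K` and
constant term of absolute value at most `L`. If its error probability is at most `δ` on
every input, then on some input (which has no solution) the expected number of tests is at least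
`(1 - 2 δ) m^2`. -/
theorem result (n K L m : ℕ) (hK : 1 ≤ K) (hmn : 900 * K ^ 4 * (L + 1) * m ^ 2 ≤ n ^ 2)
    {Ω : Type*} [MeasurableSpace Ω] (μ : Measure Ω)
    [IsProbabilityMeasure μ] (T : Ω → Tree n) (hT : ∀ ω, (T ω).Allowed K L)
    (hmeas : ∀ x, MeasurableSet {ω | (T ω).eval x = true}) (δ : ℝ)
    (herr : ∀ x, Input n x → μ.real {ω | ¬ ((T ω).eval x = true ↔ Has3Sum x)} ≤ δ) :
    ∃ x, Input n x ∧ ¬ Has3Sum x ∧
      ENNReal.ofReal ((1 - 2 * δ) * (m : ℝ) ^ 2) ≤ ∫⁻ ω, ((T ω).cost x : ENNReal) ∂μ := by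
  classical
  rcases Nat.eq_zero_or_pos m with hm0 | hm
  · obtain ⟨x, hx, hx'⟩ := easy_input n
    refine ⟨x, hx, hx', ?_⟩
    rw [hm0]
    simp
  have h4 : 4 * m ≤ n := by
    have h1 : 1 ≤ K ^ 4 := Nat.one_le_pow _ _ hK
    have h2 : 1 ≤ K ^ 4 * (L + 1) := Nat.mul_pos h1 (Nat.succ_pos L)
    have h3 : (4 * m) ^ 2 ≤ n ^ 2 := by nlinarith
    exact (Nat.pow_le_pow_iff_left (by norm_num)).1 h3
  have hn : 1 ≤ n := by omega
  set v := sinp n K L m 0 0 1 with hv
  have hvin : Input n v := inp_input n K L m hK hm h4 hmn 0 0 1 le_rfl (by omega) le_rfl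
    (by omega) (by norm_num) (by norm_num)
  have hv3 : ¬ Has3Sum v := by
    rw [hv, has3Sum_sinp]
    exact not_has3Sum n K m hK hm hn
  refine ⟨v, hvin, hv3, ?_⟩
  set D : Fin m × Fin m → Set Ω := fun q =>
    {ω | (T ω).eval v ≠ (T ω).eval (sinp n K L m q.1 q.2 0)} with hD
  have hDmeas : ∀ q, MeasurableSet (D q) := by
    intro q
    have h1 := hmeas v
    have h2 := hmeas (sinp n K L m q.1 q.2 0)
    have : D q = ({ω | (T ω).eval v = true} \ {ω | (T ω).eval (sinp n K L m q.1 q.2 0) = true}) ∪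
        ({ω | (T ω).eval (sinp n K L m q.1 q.2 0) = true} \ {ω | (T ω).eval v = true}) := by
      ext ω
      simp only [hD, Set.mem_ofPred_eq, Set.mem_union, Set.mem_sdiff]
      cases (T ω).eval v <;> cases (T ω).eval (sinp n K L m q.1 q.2 0) <;> simp
    rw [this]
    exact (h1.diff h2).union (h2.diff h1)
  have hDreal : ∀ q, 1 - 2 * δ ≤ μ.real (D q) := by
    intro q
    have e1 := herr v hvin
    have e2 := herr (sinp n K L m q.1 q.2 0) (inp_input n K L m hK hm h4 hmn q.1 q.2 0
      (by positivity) (by have := q.1.2; omega) (by positivity) (by have := q.2.2; omega)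
      le_rfl (by norm_num))
    have hyes : Has3Sum (sinp n K L m q.1 q.2 0) := by
      rw [has3Sum_sinp]
      exact has3Sum n K m q.1 q.2 h4 q.1.2 q.2.2
    have hsub : (D q)ᶜ ⊆ {ω | ¬ ((T ω).eval v = true ↔ Has3Sum v)} ∪
        {ω | ¬ ((T ω).eval (sinp n K L m q.1 q.2 0) = true ↔
          Has3Sum (sinp n K L m q.1 q.2 0))} := by
      intro ω hω
      simp only [hD, Set.mem_compl_iff, Set.mem_ofPred_eq, not_not] at hω
      simp only [Set.mem_union, Set.mem_ofPred_eq, hv3, hyes, iff_false, iff_true, not_not]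
      rw [hω]
      cases (T ω).eval (sinp n K L m q.1 q.2 0) <;> simp
    have h1 : μ.real (D q)ᶜ ≤ δ + δ :=
      (measureReal_mono hsub).trans ((measureReal_union_le _ _).trans (add_le_add e1 e2))
    have h2 : μ.real (D q) + μ.real (D q)ᶜ = 1 := by
      rw [measureReal_add_measureReal_compl (hDmeas q)]
      simp
    linarith
  calc ENNReal.ofReal ((1 - 2 * δ) * (m : ℝ) ^ 2)
      ≤ ENNReal.ofReal (∑ q : Fin m × Fin m, μ.real (D q)) := by
        apply ENNReal.ofReal_le_ofReal
        have : ∑ _q : Fin m × Fin m, (1 - 2 * δ) ≤ ∑ q : Fin m × Fin m, μ.real (D q) :=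
          Finset.sum_le_sum fun q _ => hDreal q
        refine le_trans (le_of_eq ?_) this
        rw [Finset.sum_const, Finset.card_univ, Fintype.card_prod, Fintype.card_fin,
          nsmul_eq_mul]
        push_cast
        ring
    _ = ∑ q : Fin m × Fin m, μ (D q) := by
        rw [ENNReal.ofReal_sum_of_nonneg (fun q _ => measureReal_nonneg)]
        exact Finset.sum_congr rfl fun q _ => by simp
    _ = ∫⁻ ω, ∑ q : Fin m × Fin m, (D q).indicator (fun _ => (1 : ENNReal)) ω ∂μ := by
        rw [lintegral_finsetSum _ (fun q _ => measurable_const.indicator (hDmeas q))]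
        refine Finset.sum_congr rfl fun q _ => ?_
        rw [lintegral_indicator (hDmeas q)]
        simp
    _ ≤ ∫⁻ ω, ((T ω).cost v : ENNReal) ∂μ := by
        refine lintegral_mono fun ω => ?_
        have h1 := count n K L m hK hm h4 (T ω) (hT ω)
        have h2 : ∑ q : Fin m × Fin m, (D q).indicator (fun _ => (1 : ENNReal)) ω =
            ((Finset.univ.filter fun q : Fin m × Fin m =>
              (T ω).eval (sinp n K L m 0 0 1) ≠
                (T ω).eval (sinp n K L m q.1 q.2 0)).card : ENNReal) := by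
          rw [Finset.card_filter]
          push_cast
          refine Finset.sum_congr rfl fun q _ => ?_
          simp only [Set.indicator_apply, hD, Set.mem_ofPred_eq, hv]
        simp only
        rw [h2]
        exact_mod_cast h1

end Pool.Agent.Results.MP_13bec0_lc.ThreeTermTests
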